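import Pool.Agent.Helper14.LK.Pip

/-!
MP_71c16a_nt: Lemma K. A measure on the sets with at most `p` elements, such that every set of cost less than `d` is hit with
mass at most one, has total size at most `2 p`, if the total cost is at most `p d`.
-/

open Finset

namespace LK14

variable {ι : Type*} [Fintype ι] [DecidableEq ι]

/-- STEP 3 -/
theorem hit_bound {y : ℝ} (h0 : 0 ≤ y) (h1 : y ≤ 1) (x : ℕ) : (1 + x * y) * (1 - y) ^ x ≤ 1 := by
  have e1 : 1 + (x : ℝ) * y ≤ (1 + y) ^ x := one_add_mul_le_pow (by linarith) x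
  have e2 : 0 ≤ (1 - y) ^ x := pow_nonneg (by linarith) x
  calc (1 + x * y) * (1 - y) ^ x ≤ (1 + y) ^ x * (1 - y) ^ x := mul_le_mul_of_nonneg_right e1 e2
    _ = (1 - y ^ 2) ^ x := by rw [← mul_pow]; congr 1; ring
    _ ≤ 1 := pow_le_one₀ (by nlinarith) (by nlinarith)

/-- STEP 3, in the form needed -/
theorem hit_bound' {κ L t y : ℝ} (hκ : 0 < κ) (hL : 0 < L) (htL : t ≤ L) (hy : y = min 1 (max 0 t / κ)) (x : ℕ) :
    (x : ℝ) * t ≤ (κ + x * L) * (1 - (1 - y) ^ x) := by
  have hx : (0 : ℝ) ≤ x := Nat.cast_nonneg x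
  have hden : 0 < κ + x * L := by positivity
  rcases le_or_gt t 0 with ht | ht
  · have h1 : y = 0 := by
      rw [hy, max_eq_left ht, zero_div]
      exact min_eq_right zero_le_one
    rw [h1, sub_zero, one_pow, sub_self, mul_zero]
    exact mul_nonpos_of_nonneg_of_nonpos hx ht
  · rw [max_eq_right ht.le] at hy
    rcases le_or_gt t κ with h2 | h2
    · have h3 : t / κ ≤ 1 := (div_le_one hκ).2 h2
      have h4 : y = t / κ := by rw [hy]; exact min_eq_right h3
      have h5 : 0 ≤ y := by rw [h4]; positivity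
      have h6 := hit_bound h5 (by rw [h4]; exact h3) x
      have h7 : t = κ * y := by rw [h4]; field_simp
      obtain ⟨q, hq⟩ : ∃ q, q = (1 - y) ^ x := ⟨_, rfl⟩
      rw [← hq] at h6 ⊢
      have hq0 : 0 ≤ q := by
        rw [hq]
        exact pow_nonneg (by rw [h4]; linarith) x
      have hq1 : q ≤ 1 := by
        rw [hq]
        exact pow_le_one₀ (by rw [h4]; linarith) (by linarith)
      -- `x t ≤ (κ + x t)(1 - q) ≤ (κ + x L)(1 - q)`
      have h8 : (x : ℝ) * t ≤ (κ + x * t) * (1 - q) := by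
        have : (κ + x * t) * q ≤ κ := by
          rw [h7]
          calc (κ + x * (κ * y)) * q = κ * ((1 + x * y) * q) := by ring
            _ ≤ κ * 1 := mul_le_mul_of_nonneg_left h6 hκ.le
            _ = κ := mul_one κ
        nlinarith
      have h9 : (κ + x * t) * (1 - q) ≤ (κ + x * L) * (1 - q) := by
        apply mul_le_mul_of_nonneg_right _ (by linarith)
        have := mul_le_mul_of_nonneg_left htL hx
        linarith
      exact h8.trans h9
    · have h3 : 1 ≤ t / κ := (one_le_div hκ).2 h2.le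
      have h4 : y = 1 := by rw [hy]; exact min_eq_left h3
      rcases Nat.eq_zero_or_pos x with rfl | hx0
      · simp
      · rw [h4, sub_self, zero_pow (by omega), sub_zero, mul_one]
        have := mul_le_mul_of_nonneg_left htL hx
        linarith

/-- **LEMMA K.** -/
theorem lemmaK (p : ℕ) {d : ℝ} (hd : 0 < d) {k : ι → ℝ} (hk0 : ∀ i, 0 < k i) (hkd : ∀ i, k i < d)
    (hK : ∑ i, k i ≤ p * d) {w : Finset ι → ℝ} (hw : ∀ X, 0 ≤ w X) (hc : ∀ X, w X ≠ 0 → X.card ≤ p)
    (h : ∀ Z : Finset ι, ∑ i ∈ Z, k i < d → ∑ X : Finset ι, w X * (if Disjoint X Z then 0 else 1) ≤ 1) :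
    ∑ X : Finset ι, w X * X.card ≤ 2 * p := by
  rcases le_or_gt (Fintype.card ι) (2 * p) with hN | hN
  · -- at most `2 p` items
    have h1 : ∀ X : Finset ι, w X * (X.card : ℝ) = ∑ i : ι, w X * (if Disjoint X {i} then 0 else 1) := by
      intro X
      rw [← mul_sum]
      congr 1
      have : ∀ i : ι, (if Disjoint X {i} then (0 : ℝ) else 1) = if i ∈ X then 1 else 0 := by
        intro i
        by_cases hi : i ∈ X
        · rw [if_pos hi, if_neg]
          rw [disjoint_singleton_right]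
          exact fun h => h hi
        · rw [if_neg hi, if_pos]
          rwa [disjoint_singleton_right]
      simp only [this]
      rw [sum_ite_mem, univ_inter, sum_const, nsmul_eq_mul, mul_one]
    simp only [h1]
    rw [sum_comm]
    calc ∑ i : ι, ∑ X : Finset ι, w X * (if Disjoint X {i} then 0 else 1) ≤ ∑ i : ι, (1 : ℝ) :=
          sum_le_sum fun i _ => h {i} (by rw [sum_singleton]; exact hkd i)
      _ = (Fintype.card ι : ℝ) := by rw [sum_const, nsmul_eq_mul, mul_one, card_univ]
      _ ≤ 2 * p := by exact_mod_cast hN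
  -- the `2 p` largest items
  obtain ⟨B, hB, hBmax⟩ := exists_max_image (powersetCard (2 * p) (univ : Finset ι)) (fun B => ∑ i ∈ B, k i)
    (powersetCard_nonempty.2 (by rw [card_univ]; exact hN.le))
  rw [mem_powersetCard] at hB
  have hBS : ∀ j ∈ B, ∀ i ∉ B, k i ≤ k j := by
    intro j hj i hi
    have h1 := hBmax (insert i (B.erase j)) (by
      rw [mem_powersetCard]
      refine ⟨subset_univ _, ?_⟩
      rw [card_insert_of_notMem (fun h => hi (mem_of_mem_erase h)), card_erase_of_mem hj, hB.2]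
      have : 0 < B.card := card_pos.2 ⟨j, hj⟩
      omega)
    rw [sum_insert (fun h => hi (mem_of_mem_erase h)), ← add_sum_erase B k hj] at h1
    linarith
  -- the other items
  have hSne : (univ \ B : Finset ι).Nonempty := by
    rw [← card_pos, card_sdiff_of_subset (subset_univ B), card_univ, hB.2]
    omega
  obtain ⟨m, hm, hmax⟩ := exists_max_image (univ \ B : Finset ι) k hSne
  obtain ⟨b, hb⟩ : ∃ b, b = k m := ⟨_, rfl⟩
  rw [← hb] at hmax
  have hb0 : 0 < b := by rw [hb]; exact hk0 m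
  have hmB : m ∉ B := (mem_sdiff.1 hm).2
  have hbB : ∀ j ∈ B, b ≤ k j := fun j hj => by rw [hb]; exact hBS j hj m hmB
  obtain ⟨κ, hκ⟩ : ∃ κ, κ = ∑ i ∈ univ \ B, k i := ⟨_, rfl⟩
  have hκ0 : b ≤ κ := by
    rw [hκ, hb]
    exact single_le_sum (f := k) (fun i _ => (hk0 i).le) hm
  have hKsum : ∑ i ∈ B, k i + κ = ∑ i, k i := by
    rw [hκ, add_comm, sum_sdiff (subset_univ B)]
  have hBb : 2 * (p : ℝ) * b ≤ ∑ i ∈ B, k i := by
    calc 2 * (p : ℝ) * b = ∑ i ∈ B, b := by rw [sum_const, hB.2, nsmul_eq_mul]; push_cast; ring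
      _ ≤ _ := sum_le_sum hbB
  obtain ⟨L, hL⟩ : ∃ L, L = d - 2 * b := ⟨_, rfl⟩
  have hp0 : (0 : ℝ) ≤ p := Nat.cast_nonneg p
  have hL0 : 0 < L := by
    rw [hL]
    by_contra hcon
    have h1 : d ≤ 2 * b := by linarith
    have h2 : (p : ℝ) * d ≤ p * (2 * b) := mul_le_mul_of_nonneg_left h1 hp0
    nlinarith
  -- the vectors
  obtain ⟨y, hy⟩ : ∃ y : ι → ℝ, y = fun j => min 1 (max 0 (d - k j - b) / κ) := ⟨_, rfl⟩
  have hyv : ∀ j, y j = min 1 (max 0 (d - k j - b) / κ) := fun j => by rw [hy]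
  have hκp : 0 < κ := lt_of_lt_of_le hb0 hκ0
  have hy0 : ∀ j, 0 ≤ y j := fun j => by
    rw [hyv]
    exact le_min zero_le_one (div_nonneg (le_max_left _ _) hκp.le)
  have hy1 : ∀ j, y j ≤ 1 := fun j => by
    rw [hyv]
    exact min_le_left _ _
  -- STEP 2
  have step2 : ∀ j ∈ B, ∑ X : Finset ι, w X * (if j ∈ X then 1 else 1 - (1 - y j) ^ (X \ B).card) ≤ 1 := by
    intro j hj
    obtain ⟨a, ha⟩ : ∃ a : Finset ι → ℝ, a = fun X => if j ∈ X then 0 else w X := ⟨_, rfl⟩
    have ha0 : ∀ X, 0 ≤ a X := by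
      intro X
      rw [ha]
      show 0 ≤ if j ∈ X then 0 else w X
      split_ifs
      · exact le_rfl
      · exact hw X
    obtain ⟨v, hv⟩ : ∃ v : ι → ℝ, v = fun i => if i ∈ B then 0 else y j := ⟨_, rfl⟩
    have hvB : ∀ i, v i ≠ 0 → i ∉ B := by
      intro i hi hiB
      apply hi
      rw [hv]
      exact if_pos hiB
    have hF : FF a v = ∑ X : Finset ι, a X * (1 - y j) ^ (X \ B).card := by
      unfold FF
      refine sum_congr rfl fun X _ => ?_
      congr 1
      rw [← prod_sdiff (inter_subset_left : X ∩ B ⊆ X), sdiff_inter_self_left]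
      have e1 : ∏ i ∈ X ∩ B, (1 - v i) = 1 := prod_eq_one fun i hi => by
        rw [hv]
        show 1 - (if i ∈ B then 0 else y j) = 1
        rw [if_pos (mem_inter.1 hi).2, sub_zero]
      have e2 : ∏ i ∈ X \ B, (1 - v i) = (1 - y j) ^ (X \ B).card := by
        rw [← prod_const]
        refine prod_congr rfl fun i hi => ?_
        rw [hv]
        show 1 - (if i ∈ B then 0 else y j) = 1 - y j
        rw [if_neg (mem_sdiff.1 hi).2]
      rw [e1, e2, mul_one]
    -- the set of small items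
    obtain ⟨Z, z1, z2, z3⟩ : ∃ Z : Finset ι, (∀ i ∈ Z, i ∉ B) ∧ ∑ i ∈ Z, k i < d - k j ∧
        ∑ X : Finset ι, a X * (if Disjoint X Z then 1 else 0) ≤ FF a v := by
      rcases le_or_gt (d - k j - b) 0 with hneg | hpos
      · refine ⟨∅, fun i hi => absurd hi (notMem_empty i), by rw [sum_empty]; linarith [hkd j], ?_⟩
        have hyj : y j = 0 := by
          rw [hyv, max_eq_left hneg, zero_div]
          exact min_eq_right zero_le_one
        rw [hF]
        refine le_of_eq (sum_congr rfl fun X _ => ?_)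
        rw [if_pos (disjoint_empty_right X), hyj, sub_zero, one_pow]
      · obtain ⟨Z, g1, g2, g3⟩ := round ha0 hk0 hb0 (fr v).card v (fun i => by
          rw [hv]
          show 0 ≤ (if i ∈ B then 0 else y j) ∧ (if i ∈ B then 0 else y j) ≤ 1
          split_ifs
          · exact ⟨le_rfl, zero_le_one⟩
          · exact ⟨hy0 j, hy1 j⟩) rfl (fun i hi => hmax i (mem_sdiff.2 ⟨mem_univ i, hvB i hi⟩))
        refine ⟨Z, fun i hi => hvB i (g1 i hi), ?_, g3⟩
        have e1 : ∑ i, k i * v i = κ * y j := by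
          rw [hκ, sum_mul, ← sum_sdiff (subset_univ B)]
          have e2 : ∑ i ∈ B, k i * v i = 0 := sum_eq_zero fun i hi => by
            rw [hv]
            show k i * (if i ∈ B then 0 else y j) = 0
            rw [if_pos hi, mul_zero]
          rw [e2, add_zero]
          refine sum_congr rfl fun i hi => ?_
          rw [hv]
          show k i * (if i ∈ B then 0 else y j) = k i * y j
          rw [if_neg (mem_sdiff.1 hi).2]
        have e3 : κ * y j ≤ d - k j - b := by
          have e4 : y j ≤ (d - k j - b) / κ := by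
            rw [hyv, max_eq_right hpos.le]
            exact min_le_right _ _
          calc κ * y j ≤ κ * ((d - k j - b) / κ) := mul_le_mul_of_nonneg_left e4 hκp.le
            _ = d - k j - b := by field_simp
        rw [e1] at g2
        linarith
    have hjZ : j ∉ Z := fun h1 => z1 j h1 hj
    have h4 := h (insert j Z) (by rw [sum_insert hjZ]; linarith)
    have h5 : ∀ X : Finset ι, w X * (if Disjoint X (insert j Z) then 0 else 1) =
        w X - a X * (if Disjoint X Z then 1 else 0) := by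
      intro X
      rw [ha]
      show _ = w X - (if j ∈ X then 0 else w X) * _
      by_cases hjX : j ∈ X
      · rw [if_neg, if_pos hjX]
        · ring
        · rw [disjoint_insert_right]
          exact fun h6 => h6.1 hjX
      · rw [if_neg hjX]
        by_cases hXZ : Disjoint X Z
        · rw [if_pos (disjoint_insert_right.2 ⟨hjX, hXZ⟩), if_pos hXZ]
          ring
        · rw [if_neg (fun h6 => hXZ (disjoint_insert_right.1 h6).2), if_neg hXZ]
          ring
    have h6 : ∀ X : Finset ι, w X * (if j ∈ X then 1 else 1 - (1 - y j) ^ (X \ B).card) =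
        w X - a X * (1 - y j) ^ (X \ B).card := by
      intro X
      rw [ha]
      show _ = w X - (if j ∈ X then 0 else w X) * _
      by_cases hjX : j ∈ X
      · rw [if_pos hjX, if_pos hjX]
        ring
      · rw [if_neg hjX, if_neg hjX]
        ring
    simp only [h5] at h4
    simp only [h6]
    rw [sum_sub_distrib] at h4 ⊢
    rw [← hF]
    linarith
  -- STEP 4
  have step4 : ∀ X : Finset ι, X.card ≤ p →
      (X.card : ℝ) ≤ ∑ j ∈ B, (if j ∈ X then 1 else 1 - (1 - y j) ^ (X \ B).card) := by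
    intro X hX
    obtain ⟨x, hx⟩ : ∃ x, x = (X \ B).card := ⟨_, rfl⟩
    obtain ⟨z, hz⟩ : ∃ z, z = (B ∩ X).card := ⟨_, rfl⟩
    have hcard : X.card = z + x := by
      rw [hz, hx, inter_comm, card_inter_add_card_sdiff]
    rw [← hx]
    have h1 : ∑ j ∈ B, (if j ∈ X then (1 : ℝ) else 1 - (1 - y j) ^ x) = z + ∑ j ∈ B \ X, (1 - (1 - y j) ^ x) := by
      rw [← sum_sdiff (inter_subset_left : B ∩ X ⊆ B), sdiff_inter_self_left, add_comm]
      congr 1
      · rw [sum_congr rfl fun j hj => if_pos (mem_inter.1 hj).2, sum_const, nsmul_eq_mul, mul_one, hz]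
      · exact sum_congr rfl fun j hj => if_neg (mem_sdiff.1 hj).2
    rw [h1, hcard]
    push_cast
    -- the inner sum
    have h2 : (x : ℝ) ≤ ∑ j ∈ B \ X, (1 - (1 - y j) ^ x) := by
      have hden : 0 < κ + x * L := by positivity
      have h3 : (x : ℝ) * (κ + x * L) ≤ (∑ j ∈ B \ X, (1 - (1 - y j) ^ x)) * (κ + x * L) := by
        have h4 : ∑ j ∈ B \ X, (x : ℝ) * (d - k j - b) ≤ ∑ j ∈ B \ X, (κ + x * L) * (1 - (1 - y j) ^ x) :=
          sum_le_sum fun j hj => hit_bound' hκp hL0 (by
            rw [hL]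
            linarith [hbB j (mem_sdiff.1 hj).1]) (hyv j) x
        rw [← mul_sum, ← mul_sum] at h4
        have h5 : κ + x * L ≤ ∑ j ∈ B \ X, (d - k j - b) := by
          have h6 : ∑ j ∈ B \ X, k j = ∑ i, k i - κ - ∑ j ∈ B ∩ X, k j := by
            have := sum_sdiff (f := k) (inter_subset_left : B ∩ X ⊆ B)
            rw [sdiff_inter_self_left] at this
            linarith
          have h7 : (z : ℝ) * b ≤ ∑ j ∈ B ∩ X, k j := by
            calc (z : ℝ) * b = ∑ j ∈ B ∩ X, b := by rw [sum_const, nsmul_eq_mul, hz]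
              _ ≤ _ := sum_le_sum fun j hj => hbB j (mem_inter.1 hj).1
          have h8 : ((B \ X).card : ℝ) = 2 * p - z := by
            have : (B \ X).card + z = 2 * p := by rw [hz, card_sdiff_add_card_inter, hB.2]
            have h9 : ((B \ X).card : ℝ) + z = 2 * p := by exact_mod_cast this
            linarith
          have h9 : ∑ j ∈ B \ X, (d - k j - b) = (2 * p - z) * (d - b) - ∑ j ∈ B \ X, k j := by
            rw [← h8, ← nsmul_eq_mul, ← sum_const, ← sum_sub_distrib]
            exact sum_congr rfl fun j _ => by ring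
          have h10 : (z : ℝ) + x ≤ p := by
            rw [hcard] at hX
            exact_mod_cast hX
          rw [h9, h6]
          have h11 : (x : ℝ) * L ≤ (p - z) * L := mul_le_mul_of_nonneg_right (by linarith) hL0.le
          have h12 : (p - (z : ℝ)) * L = (p - z) * d - 2 * ((p - z) * b) := by rw [hL]; ring
          nlinarith
        have h6 : (x : ℝ) * (κ + x * L) ≤ x * ∑ j ∈ B \ X, (d - k j - b) :=
          mul_le_mul_of_nonneg_left h5 (Nat.cast_nonneg x)
        calc (x : ℝ) * (κ + x * L) ≤ x * ∑ j ∈ B \ X, (d - k j - b) := h6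
          _ ≤ (κ + x * L) * ∑ j ∈ B \ X, (1 - (1 - y j) ^ x) := h4
          _ = _ := mul_comm _ _
      exact le_of_mul_le_mul_right h3 hden
    linarith
  -- the sum
  calc ∑ X : Finset ι, w X * X.card
      ≤ ∑ X : Finset ι, w X * ∑ j ∈ B, (if j ∈ X then 1 else 1 - (1 - y j) ^ (X \ B).card) := by
        refine sum_le_sum fun X _ => ?_
        by_cases hX : w X = 0
        · rw [hX, zero_mul, zero_mul]
        · exact mul_le_mul_of_nonneg_left (step4 X (hc X hX)) (hw X)
    _ = ∑ j ∈ B, ∑ X : Finset ι, w X * (if j ∈ X then 1 else 1 - (1 - y j) ^ (X \ B).card) := by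
        rw [sum_comm]
        exact sum_congr rfl fun X _ => mul_sum _ _ _
    _ ≤ ∑ j ∈ B, (1 : ℝ) := sum_le_sum step2
    _ = 2 * p := by rw [sum_const, hB.2, nsmul_eq_mul, mul_one]; push_cast; ring

/-- **LEMMA K**, integral costs -/
theorem lemmaK_nat (p s : ℕ) {k : ι → ℕ} (hk0 : ∀ i, 1 ≤ k i) (hks : ∀ i, k i ≤ s) (hK : ∑ i, k i ≤ p * (s + 1))
    {w : Finset ι → ℝ} (hw : ∀ X, 0 ≤ w X) (hc : ∀ X, w X ≠ 0 → X.card ≤ p)
    (h : ∀ Z : Finset ι, ∑ i ∈ Z, k i ≤ s → ∑ X : Finset ι, w X * (if Disjoint X Z then 0 else 1) ≤ 1) :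
    ∑ X : Finset ι, w X * X.card ≤ 2 * p := by
  refine lemmaK p (d := (s : ℝ) + 1) (by positivity) (k := fun i => (k i : ℝ)) (fun i => ?_) (fun i => ?_) ?_ hw hc
    fun Z hZ => h Z ?_
  · have := hk0 i
    exact_mod_cast this
  · have := hks i
    have h1 : (k i : ℝ) ≤ s := by exact_mod_cast this
    linarith
  · exact_mod_cast hK
  · have h1 : ((∑ i ∈ Z, k i : ℕ) : ℝ) < ((s + 1 : ℕ) : ℝ) := by
      push_cast
      exact hZ
    have h2 : ∑ i ∈ Z, k i < s + 1 := by exact_mod_cast h1
    omega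

end LK14
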