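import Mathlib

/-!
MP_71c16a_nt: Lemma K, step 1 (rounding of a fractional vector of small items, conserved cost).
-/

open Finset

namespace LK14

variable {ι : Type*} [Fintype ι] [DecidableEq ι]

/-- the multilinear function of the sets missed -/
def FF (a : Finset ι → ℝ) (y : ι → ℝ) : ℝ := ∑ X : Finset ι, a X * ∏ i ∈ X, (1 - y i)

/-- the coordinates different from zero and one -/
noncomputable def fr (y : ι → ℝ) : Finset ι := univ.filter fun i => y i ≠ 0 ∧ y i ≠ 1

theorem prod_split (X : Finset ι) {i l : ι} (hil : i ≠ l) (z : ι → ℝ) : ∏ m ∈ X, (1 - z m) =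
    (if i ∈ X then 1 - z i else 1) * (if l ∈ X then 1 - z l else 1) * ∏ m ∈ (X.erase i).erase l, (1 - z m) := by
  have h1 : ∏ m ∈ X, (1 - z m) = (if i ∈ X then 1 - z i else 1) * ∏ m ∈ X.erase i, (1 - z m) := by
    split_ifs with h
    · rw [mul_prod_erase X (fun m => 1 - z m) h]
    · rw [erase_eq_of_notMem h, one_mul]
  have h2 : ∏ m ∈ X.erase i, (1 - z m) = (if l ∈ X then 1 - z l else 1) * ∏ m ∈ (X.erase i).erase l, (1 - z m) := by
    split_ifs with h
    · rw [mul_prod_erase (X.erase i) (fun m => 1 - z m) (mem_erase.2 ⟨Ne.symm hil, h⟩)]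
    · rw [erase_eq_of_notMem (s := X.erase i) (fun h1 => h (mem_of_mem_erase h1)), one_mul]
  rw [h1, h2, mul_assoc]

/-- concavity along the moves which conserve the cost -/
theorem FF_move {a : Finset ι → ℝ} (ha : ∀ X, 0 ≤ a X) {y : ι → ℝ} (hy : ∀ i, 0 ≤ y i ∧ y i ≤ 1) {i l : ι} (hil : i ≠ l)
    {α β : ℝ} (hα : 0 < α) (hβ : 0 < β) {s t : ℝ} (hs : 0 ≤ s) (ht : 0 ≤ t) {z z' : ι → ℝ}
    (hz : ∀ m, m ≠ i → m ≠ l → z m = y m) (hz' : ∀ m, m ≠ i → m ≠ l → z' m = y m)
    (zi : z i = y i + t * α) (zl : z l = y l - t * β) (zi' : z' i = y i - s * α) (zl' : z' l = y l + s * β) :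
    s * FF a z + t * FF a z' ≤ (s + t) * FF a y := by
  unfold FF
  rw [mul_sum, mul_sum, mul_sum, ← sum_add_distrib]
  refine sum_le_sum fun X _ => ?_
  rw [prod_split X hil z, prod_split X hil z', prod_split X hil y]
  have e1 : ∏ m ∈ (X.erase i).erase l, (1 - z m) = ∏ m ∈ (X.erase i).erase l, (1 - y m) :=
    prod_congr rfl fun m hm => by
      rw [mem_erase, mem_erase] at hm
      rw [hz m hm.2.1 hm.1]
  have e2 : ∏ m ∈ (X.erase i).erase l, (1 - z' m) = ∏ m ∈ (X.erase i).erase l, (1 - y m) :=
    prod_congr rfl fun m hm => by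
      rw [mem_erase, mem_erase] at hm
      rw [hz' m hm.2.1 hm.1]
  rw [e1, e2]
  obtain ⟨R, hR⟩ : ∃ R, R = ∏ m ∈ (X.erase i).erase l, (1 - y m) := ⟨_, rfl⟩
  have hR0 : 0 ≤ R := by
    rw [hR]
    exact prod_nonneg fun m _ => by linarith [(hy m).2]
  rw [← hR, zi, zl, zi', zl']
  have hc : 0 ≤ a X * R := mul_nonneg (ha X) hR0
  by_cases h1 : i ∈ X <;> by_cases h2 : l ∈ X
  · simp only [h1, h2, if_true]
    have key : s * ((1 - (y i + t * α)) * (1 - (y l - t * β))) + t * ((1 - (y i - s * α)) * (1 - (y l + s * β))) ≤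
        (s + t) * ((1 - y i) * (1 - y l)) := by
      have : (s + t) * ((1 - y i) * (1 - y l)) - (s * ((1 - (y i + t * α)) * (1 - (y l - t * β))) +
          t * ((1 - (y i - s * α)) * (1 - (y l + s * β)))) = s * t * (s + t) * (α * β) := by ring
      have h3 : 0 ≤ s * t * (s + t) * (α * β) := by positivity
      linarith
    calc _ = (a X * R) * (s * ((1 - (y i + t * α)) * (1 - (y l - t * β))) +
          t * ((1 - (y i - s * α)) * (1 - (y l + s * β)))) := by ring
      _ ≤ (a X * R) * ((s + t) * ((1 - y i) * (1 - y l))) := mul_le_mul_of_nonneg_left key hc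
      _ = _ := by ring
  · simp only [h1, h2, if_true, if_false]
    apply le_of_eq
    ring
  · simp only [h1, h2, if_true, if_false]
    apply le_of_eq
    ring
  · simp only [h1, h2, if_false]
    apply le_of_eq
    ring

/-- integral vectors -/
theorem round0 (a : Finset ι → ℝ) {k : ι → ℝ} {y : ι → ℝ} (hy : ∀ i, y i = 0 ∨ y i = 1) :
    ∃ Z : Finset ι, (∀ i ∈ Z, y i ≠ 0) ∧ ∑ i ∈ Z, k i = ∑ i, k i * y i ∧
      ∑ X : Finset ι, a X * (if Disjoint X Z then 1 else 0) = FF a y := by
  refine ⟨univ.filter fun i => y i = 1, fun i hi => ?_, ?_, ?_⟩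
  · rw [(mem_filter.1 hi).2]
    exact one_ne_zero
  · rw [sum_filter]
    refine sum_congr rfl fun i _ => ?_
    rcases hy i with h | h
    · rw [h, if_neg zero_ne_one, mul_zero]
    · rw [h, if_pos rfl, mul_one]
  · unfold FF
    refine sum_congr rfl fun X _ => ?_
    congr 1
    split_ifs with h
    · symm
      refine prod_eq_one fun i hi => ?_
      rcases hy i with h1 | h1
      · rw [h1, sub_zero]
      · have h2 : i ∈ univ.filter fun i => y i = 1 := mem_filter.2 ⟨mem_univ _, h1⟩
        exact absurd h2 (disjoint_left.1 h hi)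
    · rw [not_disjoint_iff] at h
      obtain ⟨i, hi, h1⟩ := h
      symm
      exact prod_eq_zero hi (by rw [(mem_filter.1 h1).2, sub_self])

/-- STEP 1: rounding -/
theorem round {a : Finset ι → ℝ} (ha : ∀ X, 0 ≤ a X) {k : ι → ℝ} (hk : ∀ i, 0 < k i) {b : ℝ} (hb : 0 < b) :
    ∀ (n : ℕ) (y : ι → ℝ), (∀ i, 0 ≤ y i ∧ y i ≤ 1) → (fr y).card = n → (∀ i, y i ≠ 0 → k i ≤ b) →
      ∃ Z : Finset ι, (∀ i ∈ Z, y i ≠ 0) ∧ ∑ i ∈ Z, k i < ∑ i, k i * y i + b ∧
        ∑ X : Finset ι, a X * (if Disjoint X Z then 1 else 0) ≤ FF a y := by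
  intro n
  induction n using Nat.strong_induction_on with
  | _ n ih =>
  intro y hy hn hkb
  rcases Nat.lt_or_ge 1 n with hn2 | hn1
  · -- two fractional coordinates
    obtain ⟨i, hi, l, hl, hil⟩ := one_lt_card.1 (by rw [hn]; exact hn2)
    rw [fr, mem_filter] at hi hl
    have i0 : 0 < y i := lt_of_le_of_ne (hy i).1 (Ne.symm hi.2.1)
    have i1 : y i < 1 := lt_of_le_of_ne (hy i).2 hi.2.2
    have l0 : 0 < y l := lt_of_le_of_ne (hy l).1 (Ne.symm hl.2.1)
    have l1 : y l < 1 := lt_of_le_of_ne (hy l).2 hl.2.2
    have ki := hk i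
    have kl := hk l
    -- the two ends
    obtain ⟨t, ht⟩ : ∃ t, t = min ((1 - y i) * k i) (y l * k l) := ⟨_, rfl⟩
    obtain ⟨s, hs⟩ : ∃ s, s = min (y i * k i) ((1 - y l) * k l) := ⟨_, rfl⟩
    have t0 : 0 < t := by
      rw [ht]
      exact lt_min (mul_pos (by linarith) ki) (mul_pos l0 kl)
    have s0 : 0 < s := by
      rw [hs]
      exact lt_min (mul_pos i0 ki) (mul_pos (by linarith) kl)
    have t1 : t ≤ (1 - y i) * k i := by rw [ht]; exact min_le_left _ _
    have t2 : t ≤ y l * k l := by rw [ht]; exact min_le_right _ _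
    have s1 : s ≤ y i * k i := by rw [hs]; exact min_le_left _ _
    have s2 : s ≤ (1 - y l) * k l := by rw [hs]; exact min_le_right _ _
    -- a general move
    have move : ∀ z : ι → ℝ, (∀ m, m ≠ i → m ≠ l → z m = y m) → (0 ≤ z i ∧ z i ≤ 1) → (0 ≤ z l ∧ z l ≤ 1) →
        (z i = 0 ∨ z i = 1 ∨ z l = 0 ∨ z l = 1) → k i * z i + k l * z l = k i * y i + k l * y l → FF a z ≤ FF a y →
        ∃ Z : Finset ι, (∀ i ∈ Z, y i ≠ 0) ∧ ∑ i ∈ Z, k i < ∑ i, k i * y i + b ∧
          ∑ X : Finset ι, a X * (if Disjoint X Z then 1 else 0) ≤ FF a y := by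
      intro z hz hzi hzl hor hcost hF
      have hzy : ∀ m, z m ≠ 0 → y m ≠ 0 := by
        intro m hm
        by_cases h1 : m = i
        · rw [h1]; exact i0.ne'
        by_cases h2 : m = l
        · rw [h2]; exact l0.ne'
        rwa [hz m h1 h2] at hm
      have hz01 : ∀ m, 0 ≤ z m ∧ z m ≤ 1 := by
        intro m
        by_cases h1 : m = i
        · rw [h1]; exact hzi
        by_cases h2 : m = l
        · rw [h2]; exact hzl
        rw [hz m h1 h2]
        exact hy m
      have hsub : fr z ⊂ fr y := by
        rw [ssubset_iff_of_subset]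
        · rcases hor with h | h | h | h
          · exact ⟨i, by rw [fr, mem_filter]; exact ⟨mem_univ _, i0.ne', i1.ne⟩, by rw [fr, mem_filter]; simp [h]⟩
          · exact ⟨i, by rw [fr, mem_filter]; exact ⟨mem_univ _, i0.ne', i1.ne⟩, by rw [fr, mem_filter]; simp [h]⟩
          · exact ⟨l, by rw [fr, mem_filter]; exact ⟨mem_univ _, l0.ne', l1.ne⟩, by rw [fr, mem_filter]; simp [h]⟩
          · exact ⟨l, by rw [fr, mem_filter]; exact ⟨mem_univ _, l0.ne', l1.ne⟩, by rw [fr, mem_filter]; simp [h]⟩
        · intro m hm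
          rw [fr, mem_filter] at hm ⊢
          by_cases h1 : m = i
          · rw [h1]; exact ⟨mem_univ _, i0.ne', i1.ne⟩
          by_cases h2 : m = l
          · rw [h2]; exact ⟨mem_univ _, l0.ne', l1.ne⟩
          rwa [hz m h1 h2] at hm
      obtain ⟨Z, g1, g2, g3⟩ := ih (fr z).card (by rw [← hn]; exact card_lt_card hsub) z hz01 rfl
        (fun m hm => hkb m (hzy m hm))
      refine ⟨Z, fun m hm => hzy m (g1 m hm), ?_, g3.trans hF⟩
      have hsum : ∑ m, k m * z m = ∑ m, k m * y m := by
        have hdec : ∀ v : ι → ℝ, ∑ m, k m * v m = k i * v i + k l * v l + ∑ m ∈ (univ.erase i).erase l, k m * v m := by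
          intro v
          rw [← add_sum_erase univ (fun m => k m * v m) (mem_univ i),
            ← add_sum_erase (univ.erase i) (fun m => k m * v m) (mem_erase.2 ⟨Ne.symm hil, mem_univ l⟩)]
          ring
        rw [hdec z, hdec y, hcost]
        congr 1
        refine sum_congr rfl fun m hm => ?_
        rw [mem_erase, mem_erase] at hm
        rw [hz m hm.2.1 hm.1]
      rwa [hsum] at g2
    -- the vectors
    obtain ⟨z, hz⟩ : ∃ z : ι → ℝ, z = Function.update (Function.update y i (y i + t * (1 / k i))) l (y l - t * (1 / k l)) :=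
      ⟨_, rfl⟩
    obtain ⟨z', hz'⟩ : ∃ z' : ι → ℝ, z' = Function.update (Function.update y i (y i - s * (1 / k i))) l (y l + s * (1 / k l)) :=
      ⟨_, rfl⟩
    have zm : ∀ m, m ≠ i → m ≠ l → z m = y m := by
      intro m h1 h2
      rw [hz, Function.update_of_ne h2, Function.update_of_ne h1]
    have zm' : ∀ m, m ≠ i → m ≠ l → z' m = y m := by
      intro m h1 h2
      rw [hz', Function.update_of_ne h2, Function.update_of_ne h1]
    have zi : z i = y i + t * (1 / k i) := by rw [hz, Function.update_of_ne hil, Function.update_self]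
    have zl : z l = y l - t * (1 / k l) := by rw [hz, Function.update_self]
    have zi' : z' i = y i - s * (1 / k i) := by rw [hz', Function.update_of_ne hil, Function.update_self]
    have zl' : z' l = y l + s * (1 / k l) := by rw [hz', Function.update_self]
    have hmove := FF_move ha hy hil (one_div_pos.2 ki) (one_div_pos.2 kl) s0.le t0.le zm zm' zi zl zi' zl'
    have hti : t * (1 / k i) ≤ 1 - y i := by rw [mul_one_div, div_le_iff₀ ki]; exact t1
    have htl : t * (1 / k l) ≤ y l := by rw [mul_one_div, div_le_iff₀ kl]; exact t2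
    have hsi : s * (1 / k i) ≤ y i := by rw [mul_one_div, div_le_iff₀ ki]; exact s1
    have hsl : s * (1 / k l) ≤ 1 - y l := by rw [mul_one_div, div_le_iff₀ kl]; exact s2
    have pti : 0 ≤ t * (1 / k i) := by positivity
    have ptl : 0 ≤ t * (1 / k l) := by positivity
    have psi : 0 ≤ s * (1 / k i) := by positivity
    have psl : 0 ≤ s * (1 / k l) := by positivity
    rcases le_or_gt (FF a z) (FF a y) with hF | hF
    · refine move z zm ⟨by rw [zi]; linarith, by rw [zi]; linarith⟩ ⟨by rw [zl]; linarith, by rw [zl]; linarith⟩ ?_ ?_ hF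
      · rcases min_choice ((1 - y i) * k i) (y l * k l) with h | h
        · right; left
          rw [zi, ht, h]
          field_simp
          ring
        · right; right; left
          rw [zl, ht, h]
          field_simp
          ring
      · rw [zi, zl]
        field_simp
        ring
    · have hF' : FF a z' ≤ FF a y := by
        by_contra hcon
        rw [not_le] at hcon
        have h1 : s * FF a y < s * FF a z := mul_lt_mul_of_pos_left hF s0
        have h2 : t * FF a y < t * FF a z' := mul_lt_mul_of_pos_left hcon t0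
        linarith
      refine move z' zm' ⟨by rw [zi']; linarith, by rw [zi']; linarith⟩ ⟨by rw [zl']; linarith, by rw [zl']; linarith⟩ ?_ ?_ hF'
      · rcases min_choice (y i * k i) ((1 - y l) * k l) with h | h
        · left
          rw [zi', hs, h]
          field_simp
          ring
        · right; right; right
          rw [zl', hs, h]
          field_simp
          ring
      · rw [zi', zl']
        field_simp
        ring
  · rcases Nat.eq_zero_or_pos n with rfl | hn0
    · -- no fractional coordinate
      have h01 : ∀ i, y i = 0 ∨ y i = 1 := by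
        intro i
        by_contra hcon
        rw [not_or] at hcon
        have : i ∈ fr y := by rw [fr, mem_filter]; exact ⟨mem_univ _, hcon⟩
        rw [card_eq_zero.1 hn] at this
        exact absurd this (notMem_empty _)
      obtain ⟨Z, g1, g2, g3⟩ := round0 (k := k) a h01
      exact ⟨Z, g1, by rw [g2]; linarith, g3.le⟩
    · -- one fractional coordinate
      obtain ⟨l, hl⟩ := card_eq_one.1 (show (fr y).card = 1 by omega)
      have hlf : l ∈ fr y := by rw [hl]; exact mem_singleton_self l
      rw [fr, mem_filter] at hlf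
      have l0 : 0 < y l := lt_of_le_of_ne (hy l).1 (Ne.symm hlf.2.1)
      have l1 : y l < 1 := lt_of_le_of_ne (hy l).2 hlf.2.2
      have h01 : ∀ i, i ≠ l → y i = 0 ∨ y i = 1 := by
        intro i hi
        by_contra hcon
        rw [not_or] at hcon
        have : i ∈ fr y := by rw [fr, mem_filter]; exact ⟨mem_univ _, hcon⟩
        rw [hl, mem_singleton] at this
        exact hi this
      have hlin : FF a y = (1 - y l) * FF a (Function.update y l 0) + y l * FF a (Function.update y l 1) := by
        unfold FF
        rw [mul_sum, mul_sum, ← sum_add_distrib]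
        refine sum_congr rfl fun X _ => ?_
        by_cases h : l ∈ X
        · have e : ∀ v : ℝ, ∏ m ∈ X, (1 - Function.update y l v m) = (1 - v) * ∏ m ∈ X.erase l, (1 - y m) := by
            intro v
            rw [← mul_prod_erase X (fun m => 1 - Function.update y l v m) h, Function.update_self]
            congr 1
            refine prod_congr rfl fun m hm => ?_
            rw [Function.update_of_ne (mem_erase.1 hm).1]
          have e' : ∏ m ∈ X, (1 - y m) = (1 - y l) * ∏ m ∈ X.erase l, (1 - y m) :=
            (mul_prod_erase X (fun m => 1 - y m) h).symm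
          rw [e, e, e']
          ring
        · have e : ∀ v : ℝ, ∏ m ∈ X, (1 - Function.update y l v m) = ∏ m ∈ X, (1 - y m) := by
            intro v
            refine prod_congr rfl fun m hm => ?_
            rw [Function.update_of_ne]
            rintro rfl
            exact h hm
          rw [e, e]
          ring
      have hsum : ∀ v : ℝ, ∑ m, k m * Function.update y l v m = ∑ m, k m * y m + k l * (v - y l) := by
        intro v
        rw [← add_sum_erase univ (fun m => k m * Function.update y l v m) (mem_univ l),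
          ← add_sum_erase univ (fun m => k m * y m) (mem_univ l), Function.update_self]
        have : ∑ m ∈ univ.erase l, k m * Function.update y l v m = ∑ m ∈ univ.erase l, k m * y m :=
          sum_congr rfl fun m hm => by rw [Function.update_of_ne (mem_erase.1 hm).1]
        rw [this]
        ring
      have fin : ∀ v : ℝ, (v = 0 ∨ v = 1) → FF a (Function.update y l v) ≤ FF a y →
          ∃ Z : Finset ι, (∀ i ∈ Z, y i ≠ 0) ∧ ∑ i ∈ Z, k i < ∑ i, k i * y i + b ∧
            ∑ X : Finset ι, a X * (if Disjoint X Z then 1 else 0) ≤ FF a y := by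
        intro v hv hF
        obtain ⟨Z, g1, g2, g3⟩ := round0 (k := k) a (y := Function.update y l v) (by
          intro i
          by_cases h : i = l
          · rw [h, Function.update_self]; exact hv
          · rw [Function.update_of_ne h]; exact h01 i h)
        refine ⟨Z, fun i hi => ?_, ?_, g3.le.trans hF⟩
        · by_cases h : i = l
          · rw [h]; exact l0.ne'
          · have := g1 i hi
            rwa [Function.update_of_ne h] at this
        · rw [g2, hsum]
          have hkl := hkb l l0.ne'
          have hkl0 := hk l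
          have hv1 : v ≤ 1 := by
            rcases hv with h | h
            · rw [h]; norm_num
            · rw [h]
          nlinarith
      rcases le_or_gt (FF a (Function.update y l 0)) (FF a y) with hF | hF
      · exact fin 0 (Or.inl rfl) hF
      · refine fin 1 (Or.inr rfl) ?_
        by_contra hcon
        rw [not_le] at hcon
        have h1 : (1 - y l) * FF a y < (1 - y l) * FF a (Function.update y l 0) :=
          mul_lt_mul_of_pos_left hF (by linarith)
        have h2 : y l * FF a y < y l * FF a (Function.update y l 1) := mul_lt_mul_of_pos_left hcon l0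
        linarith

end LK14
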